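import Pool.Agent.N502.CH.Alg

/-!
# Affine actions
-/

set_option autoImplicit false

open Submodule

namespace Pool.Agent.N502.CH

variable {V K : Type*} [AddCommGroup V] [Module ℝ V] [FiniteDimensional ℝ V] [Group K]

/-- the linear map of `V × ℝ` of an affine map of `V` -/
def aug (L : V →ₗ[ℝ] V) (c : V) : (V × ℝ) →ₗ[ℝ] (V × ℝ) :=
  LinearMap.prod (L.comp (LinearMap.fst ℝ V ℝ) + (LinearMap.snd ℝ V ℝ).smulRight c)
    (LinearMap.snd ℝ V ℝ)

omit [FiniteDimensional ℝ V] in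
theorem aug_apply (L : V →ₗ[ℝ] V) (c : V) (v : V) (t : ℝ) : aug L c (v, t) = (L v + t • c, t) :=
  rfl

/-- an affine action of the group `K` on `V` -/
structure AffAct (L : K → V →ₗ[ℝ] V) (c : K → V) : Prop where
  /-- the linear part is multiplicative -/
  lmul : ∀ k k' v, L (k * k') v = L k (L k' v)
  /-- the linear part of the identity -/
  lone : ∀ v, L 1 v = v
  /-- the cocycle -/
  cmul : ∀ k k', c (k * k') = L k (c k') + c k
  /-- the cocycle of the identity -/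
  cone : c 1 = 0

/-- the representation on the affine functions -/
def rep {L : K → V →ₗ[ℝ] V} {c : K → V} (h : AffAct L c) :
    K →* Module.End ℝ (Module.Dual ℝ (V × ℝ)) where
  toFun k := (aug (L k⁻¹) (c k⁻¹)).dualMap
  map_one' := by
    apply LinearMap.ext
    intro f
    apply LinearMap.ext
    rintro ⟨v, t⟩
    show f (aug (L 1⁻¹) (c 1⁻¹) (v, t)) = f (v, t)
    rw [aug_apply, inv_one, h.lone, h.cone, smul_zero, add_zero]
  map_mul' k k' := by
    apply LinearMap.ext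
    intro f
    apply LinearMap.ext
    rintro ⟨v, t⟩
    show f (aug (L (k * k')⁻¹) (c (k * k')⁻¹) (v, t)) =
      f (aug (L k'⁻¹) (c k'⁻¹) (aug (L k⁻¹) (c k⁻¹) (v, t)))
    rw [aug_apply, aug_apply, aug_apply, mul_inv_rev, h.lmul, h.cmul, map_add, map_smul, smul_add,
      ← add_assoc]

omit [FiniteDimensional ℝ V] in
theorem rep_apply {L : K → V →ₗ[ℝ] V} {c : K → V} (h : AffAct L c) (k : K)
    (f : Module.Dual ℝ (V × ℝ)) (v : V) (t : ℝ) :
    rep h k f (v, t) = f (L k⁻¹ v + t • c k⁻¹, t) := rfl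

omit [FiniteDimensional ℝ V] in
theorem rep_inv_apply {L : K → V →ₗ[ℝ] V} {c : K → V} (h : AffAct L c) (k : K)
    (f : Module.Dual ℝ (V × ℝ)) (v : V) (t : ℝ) :
    rep h k⁻¹ f (v, t) = f (L k v + t • c k, t) := by
  rw [rep_apply, inv_inv]

/-- the constant function -/
def one (V : Type*) [AddCommGroup V] [Module ℝ V] : Module.Dual ℝ (V × ℝ) := LinearMap.snd ℝ V ℝ

omit [FiniteDimensional ℝ V] in
theorem one_apply (v : V) (t : ℝ) : one V (v, t) = t := rfl

omit [FiniteDimensional ℝ V] in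
theorem rep_one {L : K → V →ₗ[ℝ] V} {c : K → V} (h : AffAct L c) (k : K) :
    rep h k (one V) = one V := by
  apply LinearMap.ext
  rintro ⟨v, t⟩
  rw [rep_apply, one_apply, one_apply]

omit [FiniteDimensional ℝ V] in
theorem split (f : Module.Dual ℝ (V × ℝ)) (u v : V) (t : ℝ) :
    f (u, t) = f (u - t • v, 0) + t * f (v, 1) := by
  rw [← smul_eq_mul, ← map_smul, ← map_add]
  congr 1
  rw [Prod.smul_mk, Prod.mk_add_mk, sub_add_cancel, smul_eq_mul, mul_one, zero_add]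

omit [FiniteDimensional ℝ V] in
theorem rep_congr {L : K → V →ₗ[ℝ] V} {c : K → V} (h : AffAct L c) {g g' : K}
    (hg : ∀ v, L g v + c g = L g' v + c g') : rep h g = rep h g' := by
  have hc : c g = c g' := by
    have := hg 0
    rwa [map_zero, map_zero, zero_add, zero_add] at this
  have hL : ∀ v, L g v = L g' v := fun v => by
    have := hg v
    rw [hc] at this
    exact add_right_cancel this
  have h1 : rep h g⁻¹ = rep h g'⁻¹ := by
    apply LinearMap.ext
    intro f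
    apply LinearMap.ext
    rintro ⟨v, t⟩
    rw [rep_inv_apply, rep_inv_apply, hc, hL]
  calc rep h g = rep h g * (rep h g'⁻¹ * rep h g') := by
        rw [← map_mul, inv_mul_cancel, map_one, mul_one]
    _ = rep h g * rep h g⁻¹ * rep h g' := by rw [h1, mul_assoc]
    _ = rep h g' := by rw [← map_mul, mul_inv_cancel, map_one, one_mul]

/-- separation of a vector of `V × ℝ` -/
theorem exists_point (Q : Submodule ℝ (Module.Dual ℝ (V × ℝ))) {g : Module.Dual ℝ (V × ℝ)}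
    (hg : g ∉ Q) : ∃ u : V × ℝ, g u ≠ 0 ∧ ∀ f ∈ Q, f u = 0 := by
  obtain ⟨φ, hφ, hQ⟩ := Submodule.exists_le_ker_of_notMem hg
  refine ⟨(Module.evalEquiv ℝ (V × ℝ)).symm φ, ?_, ?_⟩
  · rw [Module.apply_evalEquiv_symm_apply]
    exact hφ
  · intro f hf
    rw [Module.apply_evalEquiv_symm_apply]
    exact LinearMap.mem_ker.1 (hQ hf)

/-- there is no proper invariant affine subspace -/
def Irr (L : K → V →ₗ[ℝ] V) (c : K → V) (A : Subgroup K) : Prop :=
  ∀ (W : Submodule ℝ V) (v : V), (∀ k ∈ A, L k v + c k - v ∈ W) →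
    (∀ k ∈ A, ∀ u ∈ W, L k u ∈ W) → W = ⊤

/-- there are no trivial factors -/
def NoTriv (L : K → V →ₗ[ℝ] V) : Prop :=
  ∀ W W' : Submodule ℝ V, W ≤ W' → (∀ k, ∀ v ∈ W, L k v ∈ W) → (∀ k, ∀ v ∈ W', L k v - v ∈ W) →
    W' ≤ W

/-- the displacements of `A` span `V` -/
def Disp (L : K → V →ₗ[ℝ] V) (c : K → V) (A : Subgroup K) : Prop :=
  ∀ W : Submodule ℝ V, (∀ a ∈ A, ∀ v, L a v + c a - v ∈ W) → W = ⊤

theorem hyp_one {L : K → V →ₗ[ℝ] V} {c : K → V} (h : AffAct L c) (hirr : Irr L c ⊤)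
    (Q : Submodule ℝ (Module.Dual ℝ (V × ℝ))) (hQ : Q ≠ ⊥) (hQK : ∀ k, ∀ f ∈ Q, rep h k f ∈ Q) :
    one V ∈ Q := by
  by_contra hone
  obtain ⟨⟨v, t⟩, hu, hQu⟩ := exists_point Q hone
  rw [one_apply] at hu
  have hv0 : ∀ f ∈ Q, f (t⁻¹ • v, 1) = 0 := by
    intro f hf
    have h1 : ((t⁻¹ • v, 1) : V × ℝ) = t⁻¹ • (v, t) := by
      rw [Prod.smul_mk, smul_eq_mul, inv_mul_cancel₀ hu]
    rw [h1, map_smul, hQu f hf, smul_zero]
  let W : Submodule ℝ V :=
    { carrier := {v | ∀ f ∈ Q, f (v, 0) = 0}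
      add_mem' := fun {x y} hx hy f hf => by
        have h1 : ((x + y, 0) : V × ℝ) = (x, 0) + (y, 0) := by rw [Prod.mk_add_mk, add_zero]
        rw [h1, map_add, hx f hf, hy f hf, add_zero]
      zero_mem' := fun f _ => map_zero f
      smul_mem' := fun r x hx f hf => by
        have h1 : ((r • x, 0) : V × ℝ) = r • (x, 0) := by rw [Prod.smul_mk, smul_zero]
        rw [h1, map_smul, hx f hf, smul_zero] }
  have hW : W = ⊤ := by
    apply hirr W (t⁻¹ • v)
    · intro k _ f hf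
      have h1 := hv0 _ (hQK k⁻¹ f hf)
      rw [rep_inv_apply, split f _ (t⁻¹ • v) 1, hv0 f hf, mul_zero, add_zero, one_smul,
        one_smul] at h1
      exact h1
    · intro k _ u hu f hf
      have h1 := hu _ (hQK k⁻¹ f hf)
      rwa [rep_inv_apply, zero_smul, add_zero] at h1
  apply hQ
  rw [eq_bot_iff]
  intro f hf
  rw [Submodule.mem_bot]
  apply LinearMap.ext
  rintro ⟨u, s⟩
  have h1 : u - s • (t⁻¹ • v) ∈ W := by rw [hW]; trivial
  rw [split f u (t⁻¹ • v) s, hv0 f hf, h1 f hf, mul_zero, add_zero]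
  rfl

theorem hyp_two {L : K → V →ₗ[ℝ] V} {c : K → V} (h : AffAct L c) (hnt : NoTriv L)
    (P Q : Submodule ℝ (Module.Dual ℝ (V × ℝ))) (hPQ : P ≤ Q) (hone : one V ∈ P)
    (_ : ∀ k, ∀ f ∈ P, rep h k f ∈ P) (hQ : ∀ k, ∀ f ∈ Q, rep h k f - f ∈ P) : Q ≤ P := by
  let ann : Submodule ℝ (Module.Dual ℝ (V × ℝ)) → Submodule ℝ V := fun R =>
    { carrier := {v | ∀ f ∈ R, f (v, 0) = 0}
      add_mem' := fun {x y} hx hy f hf => by
        have h1 : ((x + y, 0) : V × ℝ) = (x, 0) + (y, 0) := by rw [Prod.mk_add_mk, add_zero]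
        rw [h1, map_add, hx f hf, hy f hf, add_zero]
      zero_mem' := fun f _ => map_zero f
      smul_mem' := fun r x hx f hf => by
        have h1 : ((r • x, 0) : V × ℝ) = r • (x, 0) := by rw [Prod.smul_mk, smul_zero]
        rw [h1, map_smul, hx f hf, smul_zero] }
  have hQinv : ∀ k, ∀ f ∈ Q, rep h k f ∈ Q := by
    intro k f hf
    have h1 := Q.add_mem (hPQ (hQ k f hf)) hf
    rwa [sub_add_cancel] at h1
  have hle : ann P ≤ ann Q := by
    apply hnt (ann Q) (ann P)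
    · intro v hv f hf
      exact hv f (hPQ hf)
    · intro k v hv f hf
      have h1 := hv _ (hQinv k⁻¹ f hf)
      rwa [rep_inv_apply, zero_smul, add_zero] at h1
    · intro k v hv f hf
      have h1 := hv _ (hQ k⁻¹ f hf)
      rw [LinearMap.sub_apply, rep_inv_apply, zero_smul, add_zero, ← map_sub, Prod.mk_sub_mk,
        sub_zero] at h1
      exact h1
  intro g hg
  by_contra hgP
  obtain ⟨⟨v, t⟩, hu, hPu⟩ := exists_point P hgP
  have ht : t = 0 := hPu _ hone
  subst ht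
  exact hu (hle (show v ∈ ann P from hPu) g hg)

omit [FiniteDimensional ℝ V] in
theorem hyp_fix {L : K → V →ₗ[ℝ] V} {c : K → V} (h : AffAct L c) (A : Subgroup K)
    (hd : Disp L c A) (f : Module.Dual ℝ (V × ℝ)) (hf : ∀ a ∈ A, rep h a f = f) :
    f ∈ span ℝ {one V} := by
  have h1 : LinearMap.ker (f.comp (LinearMap.inl ℝ V ℝ)) = ⊤ := by
    apply hd
    intro a ha v
    show f (L a v + c a - v, 0) = 0
    have h2 : rep h a⁻¹ f (v, 1) = f (v, 1) := by rw [hf _ (A.inv_mem ha)]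
    rw [rep_inv_apply, one_smul, split f _ v 1, one_smul, one_mul] at h2
    linarith
  refine mem_span_singleton.2 ⟨f (0, 1), ?_⟩
  apply LinearMap.ext
  rintro ⟨v, t⟩
  have h2 : v ∈ LinearMap.ker (f.comp (LinearMap.inl ℝ V ℝ)) := by rw [h1]; trivial
  have h3 : f (v, 0) = 0 := h2
  rw [split f v 0 t, smul_zero, sub_zero, h3, zero_add, LinearMap.smul_apply, one_apply,
    smul_eq_mul, mul_comm]

omit [FiniteDimensional ℝ V] in
theorem one_ne_zero' : one V ≠ 0 := by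
  intro h
  have h1 := one_apply (0 : V) 1
  rw [h] at h1
  exact zero_ne_one h1

/-- the invariant subspaces of affine functions -/
theorem family_step {L : K → V →ₗ[ℝ] V} {c : K → V} (h : AffAct L c) (hirr : Irr L c ⊤)
    (𝓛 : Set (Subgroup K)) (hinf : ∀ A ∈ 𝓛, ∀ A' ∈ 𝓛, A ⊓ A' ∈ 𝓛)
    (hA : ∀ k, ∀ A ∈ 𝓛, ∃ A' ∈ 𝓛, ∀ a ∈ A', ∃ b ∈ A,
      ∀ v, L (k * a * k⁻¹) v + c (k * a * k⁻¹) = L b v + c b)
    (hd : ∀ A ∈ 𝓛, Disp L c A) (A : Subgroup K) (hA𝓛 : A ∈ 𝓛)
    (S : Submodule ℝ (Module.Dual ℝ (V × ℝ))) (hS : S ≠ ⊥)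
    (hSA : ∀ a ∈ A, ∀ f ∈ S, rep h a f ∈ S) : one V ∈ S := by
  refine step_one (rep h) 𝓛 hinf ?_ (one V) (rep_one h) (hyp_one h hirr) ?_ A hA𝓛 S hS hSA
  · intro k A hA1
    obtain ⟨A', hA', h1⟩ := hA k A hA1
    refine ⟨A', hA', fun a ha => ?_⟩
    obtain ⟨b, hb, hab⟩ := h1 a ha
    exact ⟨b, hb, rep_congr h hab⟩
  · intro A hA1
    exact hyp_fix h A (hd A hA1)

/-- no proper invariant affine subspaces -/
theorem normal_irr {L : K → V →ₗ[ℝ] V} {c : K → V} (h : AffAct L c) (A : Subgroup K)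
    (hstep : ∀ S : Submodule ℝ (Module.Dual ℝ (V × ℝ)), S ≠ ⊥ →
      (∀ a ∈ A, ∀ f ∈ S, rep h a f ∈ S) → one V ∈ S) : Irr L c A := by
  intro W v hv hW
  by_contra hne
  have hlt : W < ⊤ := lt_top_iff_ne_top.2 hne
  obtain ⟨u, -, hu⟩ := SetLike.exists_of_lt hlt
  obtain ⟨φ, hφ, hφW⟩ := Submodule.exists_le_ker_of_notMem hu
  let S : Submodule ℝ (Module.Dual ℝ (V × ℝ)) :=
    { carrier := {f | f (v, 1) = 0 ∧ ∀ u ∈ W, f (u, 0) = 0}
      add_mem' := fun {x y} hx hy => ⟨by rw [LinearMap.add_apply, hx.1, hy.1, add_zero],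
        fun u hu => by rw [LinearMap.add_apply, hx.2 u hu, hy.2 u hu, add_zero]⟩
      zero_mem' := ⟨rfl, fun _ _ => rfl⟩
      smul_mem' := fun r x hx => ⟨by rw [LinearMap.smul_apply, hx.1, smul_zero],
        fun u hu => by rw [LinearMap.smul_apply, hx.2 u hu, smul_zero]⟩ }
  let f₀ : Module.Dual ℝ (V × ℝ) :=
    φ.comp (LinearMap.fst ℝ V ℝ - (LinearMap.snd ℝ V ℝ).smulRight v)
  have hf₀ : ∀ (x : V) (t : ℝ), f₀ (x, t) = φ (x - t • v) := fun _ _ => rfl
  have hf₀S : f₀ ∈ S := by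
    refine ⟨?_, ?_⟩
    · rw [hf₀, one_smul, sub_self, map_zero]
    · intro u hu
      rw [hf₀, zero_smul, sub_zero]
      exact LinearMap.mem_ker.1 (hφW hu)
  have h1 : one V ∈ S := by
    apply hstep
    · intro h0
      rw [h0, Submodule.mem_bot] at hf₀S
      apply hφ
      have h2 := hf₀ u 0
      rw [hf₀S, zero_smul, sub_zero] at h2
      exact h2.symm
    · rintro a ha f ⟨hf1, hf2⟩
      refine ⟨?_, ?_⟩
      · rw [rep_apply, one_smul, split f _ v 1, hf1, one_smul, mul_zero, add_zero]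
        exact hf2 _ (hv _ (A.inv_mem ha))
      · intro u hu
        rw [rep_apply, zero_smul, add_zero]
        exact hf2 _ (hW _ (A.inv_mem ha) u hu)
  have h2 := h1.1
  rw [one_apply] at h2
  exact one_ne_zero h2

/-- affine maps which commute with `A` are unipotent -/
theorem comm_unip {L : K → V →ₗ[ℝ] V} {c : K → V} (h : AffAct L c) (A : Subgroup K)
    (hstep : ∀ S : Submodule ℝ (Module.Dual ℝ (V × ℝ)), S ≠ ⊥ →
      (∀ a ∈ A, ∀ f ∈ S, rep h a f ∈ S) → one V ∈ S)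
    (Lb : V →ₗ[ℝ] V) (cb : V)
    (hb : ∀ a ∈ A, ∀ v, Lb (L a v + c a) + cb = L a (Lb v + cb) + c a) :
    ∃ n : ℕ, ∀ v, ((Lb - LinearMap.id : Module.End ℝ V) ^ n) (Lb v + cb - v) = 0 := by
  have hb0 : ∀ a ∈ A, Lb (c a) + cb = L a cb + c a := by
    intro a ha
    have := hb a ha 0
    rwa [map_zero, map_zero, zero_add, zero_add] at this
  have hb1 : ∀ a ∈ A, ∀ v, Lb (L a v) = L a (Lb v) := by
    intro a ha v
    have h1 := hb a ha v
    rw [map_add, map_add, add_assoc, add_assoc, hb0 a ha] at h1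
    exact add_right_cancel h1
  let g : Module.End ℝ (V × ℝ) := aug Lb cb
  let T : Module.End ℝ (Module.Dual ℝ (V × ℝ)) := g.dualMap
  have hT : ∀ f u, T f u = f (g u) := fun _ _ => rfl
  obtain ⟨n, hn⟩ := nilp one_ne_zero' hstep T (by
    intro a ha
    apply LinearMap.ext
    intro f
    apply LinearMap.ext
    rintro ⟨v, t⟩
    show f (aug (L a⁻¹) (c a⁻¹) (aug Lb cb (v, t))) = f (aug Lb cb (aug (L a⁻¹) (c a⁻¹) (v, t)))
    rw [aug_apply, aug_apply, aug_apply, aug_apply, map_add, map_add, hb1 _ (A.inv_mem ha),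
      map_smul, map_smul, add_assoc, add_assoc, ← smul_add, ← smul_add, hb0 _ (A.inv_mem ha)])
    (by
    apply LinearMap.ext
    rintro ⟨v, t⟩
    rfl)
  have hpow : ∀ (n : ℕ) f u, ((T - 1) ^ n) f u = f (((g - 1) ^ n) u) := by
    intro n
    induction n with
    | zero => intro f u; rfl
    | succ n ih =>
      intro f u
      rw [pow_succ, Module.End.mul_apply, ih, pow_succ', Module.End.mul_apply]
      rw [LinearMap.sub_apply, LinearMap.sub_apply, hT, LinearMap.sub_apply, map_sub]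
      rfl
  have hpow' : ∀ (n : ℕ) (x : V), ((g - 1) ^ n) (x, 0) =
      (((Lb - LinearMap.id : Module.End ℝ V) ^ n) x, 0) := by
    intro n
    induction n with
    | zero => intro x; rfl
    | succ n ih =>
      intro x
      rw [pow_succ, Module.End.mul_apply, pow_succ, Module.End.mul_apply]
      have h1 : (g - 1) (x, 0) = ((Lb - LinearMap.id : Module.End ℝ V) x, 0) := by
        show aug Lb cb (x, 0) - (x, 0) = (Lb x - x, 0)
        rw [aug_apply, zero_smul, add_zero, Prod.mk_sub_mk, sub_zero]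
      rw [h1, ih]
  refine ⟨n, fun v => ?_⟩
  have h1 : ∀ f : Module.Dual ℝ V,
      f (((Lb - LinearMap.id : Module.End ℝ V) ^ n) (Lb v + cb - v)) = 0 := by
    intro f
    have h2 := hpow n (f.comp (LinearMap.fst ℝ V ℝ)) (Lb v + cb - v, 0)
    rw [hn, hpow'] at h2
    exact h2.symm
  exact (Module.forall_dual_apply_eq_zero_iff ℝ _).1 h1

/-- the other factor acts trivially -/
theorem commuting_triv {L : K → V →ₗ[ℝ] V} {c : K → V} (h : AffAct L c) (hirr : Irr L c ⊤)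
    (hnt : NoTriv L) (A B : Subgroup K)
    (hAB : ∀ a ∈ A, ∀ b ∈ B, ∀ v, L (a * b) v + c (a * b) = L (b * a) v + c (b * a))
    (hgen : ∀ k, ∃ a ∈ A, ∃ b ∈ B, ∀ v, L k v + c k = L (a * b) v + c (a * b))
    (hd : Disp L c A) (b : K) (hb : b ∈ B) (v : V) : L b v + c b = v := by
  have hAB' : ∀ a ∈ A, ∀ b ∈ B, rep h a * rep h b = rep h b * rep h a := by
    intro a ha b hb
    rw [← map_mul, ← map_mul, rep_congr h (hAB a ha b hb)]
  have hgen' : ∀ k, ∃ a ∈ A, ∃ b ∈ B, rep h k = rep h a * rep h b := by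
    intro k
    obtain ⟨a, ha, b, hb, hk⟩ := hgen k
    exact ⟨a, ha, b, hb, by rw [← map_mul, rep_congr h hk]⟩
  have hstep := step_two (rep h) A B hAB' hgen' (one V) one_ne_zero' (rep_one h) (hyp_one h hirr)
    (hyp_two h hnt) (hyp_fix h A hd) b⁻¹ (B.inv_mem hb)
  have h1 : ∀ f : Module.Dual ℝ V, f (L b v + c b - v) = 0 := by
    intro f
    have h2 := LinearMap.congr_fun (hstep (f.comp (LinearMap.fst ℝ V ℝ))) (v, 1)
    rw [rep_inv_apply, one_smul] at h2
    have h3 : f (L b v + c b) = f v := h2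
    rw [map_sub, h3, sub_self]
  exact sub_eq_zero.1 ((Module.forall_dual_apply_eq_zero_iff ℝ _).1 h1)

end Pool.Agent.N502.CH
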