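import Mathlib

/-!
# Representations with a distinguished fixed vector

Let a group `K` act on a finite dimensional space `F` and let `w` be a fixed vector which is
contained in all invariant subspaces `≠ 0`.
-/

set_option autoImplicit false

open Submodule

namespace Pool.Agent.N502.CH

variable {𝕜 F K : Type*} [Field 𝕜] [AddCommGroup F] [Module 𝕜 F] [FiniteDimensional 𝕜 F] [Group K]

/-- Let `𝓛` be a family of subgroups which is closed under intersections and conjugation by `K`,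
in a weak sense. If the subgroups in `𝓛` have no fixed vectors except for the multiples of `w`,
then all invariant subspaces `≠ 0` of these subgroups contain `w`. -/
theorem step_one (ρ : K →* Module.End 𝕜 F) (𝓛 : Set (Subgroup K))
    (hinf : ∀ L ∈ 𝓛, ∀ L' ∈ 𝓛, L ⊓ L' ∈ 𝓛)
    (hA : ∀ k, ∀ L ∈ 𝓛, ∃ L' ∈ 𝓛, ∀ a ∈ L', ∃ b ∈ L, ρ (k * a * k⁻¹) = ρ b)
    (w : F) (hw : ∀ k, ρ k w = w)
    (h1 : ∀ Q : Submodule 𝕜 F, Q ≠ ⊥ → (∀ k, ∀ f ∈ Q, ρ k f ∈ Q) → w ∈ Q)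
    (hfix : ∀ L ∈ 𝓛, ∀ f, (∀ a ∈ L, ρ a f = f) → f ∈ span 𝕜 {w})
    (L₀ : Subgroup K) (hL₀ : L₀ ∈ 𝓛)
    (S₀ : Submodule 𝕜 F) (hS₀ : S₀ ≠ ⊥) (hS₀A : ∀ a ∈ L₀, ∀ f ∈ S₀, ρ a f ∈ S₀) : w ∈ S₀ := by
  by_contra hwS₀
  obtain ⟨S, ⟨hS, ⟨LS, hLS, hSA⟩, hwS⟩, hmin⟩ := WellFounded.has_min
    (wellFounded_lt : WellFounded ((· < ·) : Submodule 𝕜 F → Submodule 𝕜 F → Prop))
    {S : Submodule 𝕜 F | S ≠ ⊥ ∧ (∃ L ∈ 𝓛, ∀ a ∈ L, ∀ f ∈ S, ρ a f ∈ S) ∧ w ∉ S}
    ⟨S₀, hS₀, ⟨L₀, hL₀, hS₀A⟩, hwS₀⟩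
  obtain ⟨T, ⟨⟨LT, hLT, hTA⟩, hwT⟩, hmax⟩ := WellFounded.has_min
    (wellFounded_gt : WellFounded ((· > ·) : Submodule 𝕜 F → Submodule 𝕜 F → Prop))
    {T : Submodule 𝕜 F | (∃ L ∈ 𝓛, ∀ a ∈ L, ∀ f ∈ T, ρ a f ∈ T) ∧ w ∉ T}
    ⟨S₀, ⟨L₀, hL₀, hS₀A⟩, hwS₀⟩
  have hinv : ∀ (k : K) (f : F), ρ k⁻¹ (ρ k f) = f := by
    intro k f
    rw [← Module.End.mul_apply, ← map_mul, inv_mul_cancel, map_one, Module.End.one_apply]
  -- some translate is not contained in `T`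
  obtain ⟨k, hk⟩ : ∃ k, ¬ S.map (ρ k) ≤ T := by
    by_contra hcon
    push Not at hcon
    have h2 : w ∈ ⨆ k, S.map (ρ k) := by
      apply h1
      · intro h0
        apply hS
        rw [eq_bot_iff, ← h0]
        refine le_trans ?_ (le_iSup _ (1 : K))
        rw [map_one]
        intro f hf
        exact ⟨f, hf, rfl⟩
      · intro k f hf
        have h3 : (⨆ k, S.map (ρ k)) ≤ (⨆ k, S.map (ρ k)).comap (ρ k) := by
          refine iSup_le fun k' => ?_
          rintro _ ⟨f, hf, rfl⟩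
          refine (le_iSup (fun k => S.map (ρ k)) (k * k')) ?_
          refine ⟨f, hf, ?_⟩
          rw [map_mul, Module.End.mul_apply]
        exact h3 hf
    exact hwT ((iSup_le hcon) h2)
  obtain ⟨L₁, hL₁, hL₁S⟩ := hA k⁻¹ LS hLS
  have hkA : ∀ a ∈ L₁, ∀ f ∈ S.map (ρ k), ρ a f ∈ S.map (ρ k) := by
    rintro a ha _ ⟨f, hf, rfl⟩
    obtain ⟨b, hb, hab⟩ := hL₁S a ha
    rw [inv_inv] at hab
    refine ⟨ρ b f, hSA _ hb _ hf, ?_⟩
    rw [← hab, ← Module.End.mul_apply, ← Module.End.mul_apply, ← map_mul, ← map_mul]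
    congr 2
    group
  have hw1 : w ∈ T ⊔ S.map (ρ k) := by
    by_contra hcon
    refine hmax (T ⊔ S.map (ρ k)) ⟨⟨LT ⊓ L₁, hinf _ hLT _ hL₁, ?_⟩, hcon⟩ ?_
    · rintro a ⟨ha, ha'⟩ f hf
      obtain ⟨t, ht, s, hs, rfl⟩ := Submodule.mem_sup.1 hf
      rw [map_add]
      exact Submodule.add_mem_sup (hTA a ha t ht) (hkA a ha' s hs)
    · refine lt_of_le_of_ne le_sup_left fun h => hk ?_
      rw [h]
      exact le_sup_right
  obtain ⟨L₂, hL₂, hL₂T⟩ := hA k LT hLT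
  have hdisj : ∀ f, f ∈ T → f ∈ S.map (ρ k) → f = 0 := by
    intro f hfT hfS
    obtain ⟨s, hs, rfl⟩ := hfS
    by_contra hne
    refine hmin (S ⊓ T.comap (ρ k)) ⟨?_, ⟨LS ⊓ L₂, hinf _ hLS _ hL₂, ?_⟩, fun h => hwS h.1⟩ ?_
    · intro h0
      have h2 : s ∈ S ⊓ T.comap (ρ k) := ⟨hs, hfT⟩
      rw [h0, Submodule.mem_bot] at h2
      rw [h2, map_zero] at hne
      exact hne rfl
    · rintro a ⟨ha, ha'⟩ f ⟨hf1, hf2⟩
      refine ⟨hSA a ha f hf1, ?_⟩
      show ρ k (ρ a f) ∈ T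
      have h3 : ρ k (ρ a f) = ρ (k * a * k⁻¹) (ρ k f) := by
        rw [← Module.End.mul_apply, ← Module.End.mul_apply, ← map_mul, ← map_mul]
        congr 2
        group
      obtain ⟨b, hb, hab⟩ := hL₂T a ha'
      rw [h3, hab]
      exact hTA _ hb _ hf2
    · refine lt_of_le_of_ne inf_le_left fun h => hk ?_
      rintro _ ⟨f, hf, rfl⟩
      have h4 : f ∈ S ⊓ T.comap (ρ k) := by rw [h]; exact hf
      exact h4.2
  obtain ⟨t, ht, s, hs, hts⟩ := Submodule.mem_sup.1 hw1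
  have hsfix : ∀ a ∈ LT ⊓ L₁, ρ a s = s := by
    rintro a ⟨ha, ha'⟩
    have h5 : ρ a t + ρ a s = t + s := by rw [← map_add, hts, hw]
    have h6 : ρ a s - s = t - ρ a t := by
      rw [sub_eq_sub_iff_add_eq_add, add_comm, h5]
    have h7 := hdisj (ρ a s - s) (by rw [h6]; exact T.sub_mem ht (hTA a ha t ht))
      ((S.map (ρ k)).sub_mem (hkA a ha' s hs) hs)
    exact sub_eq_zero.1 h7
  obtain ⟨c, hc⟩ := Submodule.mem_span_singleton.1 (hfix _ (hinf _ hLT _ hL₁) s hsfix)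
  rcases eq_or_ne c 0 with h0 | h0
  · rw [h0, zero_smul] at hc
    rw [← hc, add_zero] at hts
    rw [← hts] at hwT
    exact hwT ht
  · have h8 : w ∈ S.map (ρ k) := by
      have h9 : w = c⁻¹ • s := by rw [← hc, smul_smul, inv_mul_cancel₀ h0, one_smul]
      rw [h9]
      exact Submodule.smul_mem _ _ hs
    obtain ⟨s', hs', hs'w⟩ := h8
    apply hwS
    have h10 : s' = w := by rw [← hinv k s', hs'w, hw]
    rw [← h10]
    exact hs'

/-- Endomorphisms which commute with `A` and fix `w` are unipotent. -/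
theorem nilp {ρ : K →* Module.End 𝕜 F} {A : Subgroup K} {w : F} (hw0 : w ≠ 0)
    (hstep : ∀ S : Submodule 𝕜 F, S ≠ ⊥ → (∀ a ∈ A, ∀ f ∈ S, ρ a f ∈ S) → w ∈ S)
    (T : Module.End 𝕜 F) (hT : ∀ a ∈ A, T * ρ a = ρ a * T) (hTw : T w = w) :
    ∃ n, (T - 1) ^ n = 0 := by
  have h1 := (T - 1).eventually_isCompl_ker_pow_range_pow
  obtain ⟨n, hn, hn1⟩ := (h1.and (Filter.eventually_ge_atTop 1)).exists
  refine ⟨n, ?_⟩
  have hc : ∀ a ∈ A, (T - 1) ^ n * ρ a = ρ a * (T - 1) ^ n := by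
    intro a ha
    have h2 : Commute (T - 1) (ρ a) := by
      show (T - 1) * ρ a = ρ a * (T - 1)
      rw [sub_mul, mul_sub, hT a ha, one_mul, mul_one]
    exact (h2.pow_left n).eq
  have hker : w ∈ LinearMap.ker ((T - 1) ^ n) := by
    rw [LinearMap.mem_ker]
    obtain ⟨m, rfl⟩ : ∃ m, n = m + 1 := ⟨n - 1, by omega⟩
    rw [pow_succ, Module.End.mul_apply]
    have h3 : (T - 1) w = 0 := by
      rw [LinearMap.sub_apply, hTw, Module.End.one_apply, sub_self]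
    rw [h3, map_zero]
  by_contra hne
  have hran : w ∈ LinearMap.range ((T - 1) ^ n) := by
    apply hstep
    · intro h0
      exact hne (LinearMap.range_eq_bot.1 h0)
    · rintro a ha _ ⟨f, rfl⟩
      refine ⟨ρ a f, ?_⟩
      rw [← Module.End.mul_apply, hc a ha, Module.End.mul_apply]
  exact hw0 ((Submodule.disjoint_def.1 hn.disjoint) w hker hran)

/-- If the elements of `K` act as products of elements of the commuting subgroups `A` and `B`, and if `A` has no fixed vectors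
except for the multiples of `w`, then `B` acts trivially. -/
theorem step_two (ρ : K →* Module.End 𝕜 F) (A B : Subgroup K)
    (hAB : ∀ a ∈ A, ∀ b ∈ B, ρ a * ρ b = ρ b * ρ a)
    (hgen : ∀ k, ∃ a ∈ A, ∃ b ∈ B, ρ k = ρ a * ρ b)
    (w : F) (hw0 : w ≠ 0) (hw : ∀ k, ρ k w = w)
    (h1 : ∀ Q : Submodule 𝕜 F, Q ≠ ⊥ → (∀ k, ∀ f ∈ Q, ρ k f ∈ Q) → w ∈ Q)
    (h2 : ∀ P Q : Submodule 𝕜 F, P ≤ Q → w ∈ P → (∀ k, ∀ f ∈ P, ρ k f ∈ P) →
      (∀ k, ∀ f ∈ Q, ρ k f - f ∈ P) → Q ≤ P)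
    (hfix : ∀ f, (∀ a ∈ A, ρ a f = f) → f ∈ span 𝕜 {w}) (b₀ : K) (hb₀ : b₀ ∈ B) (f₀ : F) :
    ρ b₀ f₀ = f₀ := by
  have hcomm : ∀ a ∈ A, ∀ b ∈ B, ∀ f, ρ b (ρ a f) = ρ a (ρ b f) := by
    intro a ha b hb f
    rw [← Module.End.mul_apply, ← Module.End.mul_apply, hAB a ha b hb]
  have hnorm : ∀ k, ∀ a ∈ A, ∃ a' ∈ A, ρ (k * a * k⁻¹) = ρ a' := by
    intro k a ha
    obtain ⟨a', ha', b, hb, hk⟩ := hgen k
    refine ⟨a' * a * a'⁻¹, A.mul_mem (A.mul_mem ha' ha) (A.inv_mem ha'), ?_⟩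
    have h3 : ρ (k * a) = ρ (a' * a * a'⁻¹) * ρ k := by
      rw [map_mul, hk, map_mul, map_mul]
      have h4 : ρ a'⁻¹ * ρ a' = 1 := by rw [← map_mul, inv_mul_cancel, map_one]
      calc ρ a' * ρ b * ρ a = ρ a' * (ρ b * ρ a) := mul_assoc _ _ _
        _ = ρ a' * (ρ a * ρ b) := by rw [hAB a ha b hb]
        _ = ρ a' * ρ a * (ρ a'⁻¹ * ρ a') * ρ b := by rw [h4, mul_one, mul_assoc]
        _ = ρ a' * ρ a * ρ a'⁻¹ * (ρ a' * ρ b) := by simp only [mul_assoc]
    rw [map_mul, h3, mul_assoc, ← map_mul, mul_inv_cancel, map_one, mul_one]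
  have hstep := step_one ρ {A} (by
      rintro L rfl L' rfl
      exact inf_idem _) (by
      rintro k L rfl
      exact ⟨L, rfl, hnorm k⟩) w hw h1 (by
      rintro L rfl
      exact hfix) A rfl
  let P : Submodule 𝕜 F :=
    { carrier := {f | ∀ b ∈ B, ρ b f = f}
      add_mem' := fun {x y} hx hy b hb => by rw [map_add, hx b hb, hy b hb]
      zero_mem' := fun b _ => map_zero _
      smul_mem' := fun c x hx b hb => by rw [map_smul, hx b hb] }
  have hPmem : ∀ f, f ∈ P ↔ ∀ b ∈ B, ρ b f = f := fun f => Iff.rfl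
  have hwP : w ∈ P := fun b _ => hw b
  have hPinv : ∀ k, ∀ f ∈ P, ρ k f ∈ P := by
    intro k f hf b hb
    obtain ⟨a, ha, b', hb', hk⟩ := hgen k
    rw [hk, Module.End.mul_apply, hf b' hb', hcomm a ha b hb, hf b hb]
  by_contra hne
  have hPtop : P ≠ ⊤ := by
    intro h
    have h3 : f₀ ∈ P := by rw [h]; trivial
    exact hne (h3 b₀ hb₀)
  obtain ⟨S, ⟨hPS, hSA⟩, hmin⟩ := WellFounded.has_min
    (wellFounded_lt : WellFounded ((· < ·) : Submodule 𝕜 F → Submodule 𝕜 F → Prop))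
    {S : Submodule 𝕜 F | P < S ∧ (∀ a ∈ A, ∀ f ∈ S, ρ a f ∈ S)}
    ⟨⊤, lt_top_iff_ne_top.2 hPtop, fun _ _ _ _ => trivial⟩
  have hmin' : ∀ S' : Submodule 𝕜 F, S' ≤ S → P < S' → (∀ a ∈ A, ∀ f ∈ S', ρ a f ∈ S') →
      S' = S := by
    intro S' h3 h4 h5
    by_contra h6
    exact hmin S' ⟨h4, h5⟩ (lt_of_le_of_ne h3 h6)
  -- the operators `ρ b - 1` map `S` to the line of `w`
  have hline : ∀ b ∈ B, ∀ f ∈ S, ρ b f - f ∈ span 𝕜 {w} := by
    intro b hb
    let N : F →ₗ[𝕜] F := ρ b - LinearMap.id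
    have hN : ∀ f, N f = ρ b f - f := fun f => rfl
    have hNa : ∀ a ∈ A, ∀ f, N (ρ a f) = ρ a (N f) := by
      intro a ha f
      rw [hN, hN, map_sub, hcomm a ha b hb]
    have hNP : ∀ f ∈ P, N f = 0 := fun f hf => by rw [hN, hf b hb, sub_self]
    rcases eq_or_ne (S ⊓ LinearMap.ker N) P with h3 | h3
    · have h4 : w ∈ S.map N := by
        apply hstep
        · intro h5
          apply hPS.ne
          rw [← h3]
          refine inf_eq_left.2 fun f hf => ?_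
          have h6 : N f ∈ S.map N := ⟨f, hf, rfl⟩
          rw [h5] at h6
          exact h6
        · rintro a ha _ ⟨f, hf, rfl⟩
          exact ⟨ρ a f, hSA a ha f hf, hNa a ha f⟩
      obtain ⟨f₁, hf₁, hf₁w⟩ := h4
      have h5 : S ⊓ (span 𝕜 {w}).comap N = S := by
        apply hmin' _ inf_le_left
        · refine lt_of_le_of_ne ?_ ?_
          · intro f hf
            refine ⟨hPS.le hf, ?_⟩
            show N f ∈ span 𝕜 {w}
            rw [hNP f hf]
            exact zero_mem _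
          · intro h6
            have h7 : f₁ ∈ P := by
              rw [h6]
              refine ⟨hf₁, ?_⟩
              show N f₁ ∈ span 𝕜 {w}
              rw [hf₁w]
              exact mem_span_singleton_self w
            exact hw0 (by rw [← hf₁w, hNP f₁ h7])
        · rintro a ha f ⟨hf, hf'⟩
          refine ⟨hSA a ha f hf, ?_⟩
          show N (ρ a f) ∈ span 𝕜 {w}
          rw [hNa a ha]
          obtain ⟨c, hc⟩ := Submodule.mem_span_singleton.1 (show N f ∈ span 𝕜 {w} from hf')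
          rw [← hc, map_smul, hw]
          exact Submodule.smul_mem _ _ (mem_span_singleton_self w)
      intro f hf
      have h6 : f ∈ S ⊓ (span 𝕜 {w}).comap N := by rw [h5]; exact hf
      exact h6.2
    · have h5 : S ⊓ LinearMap.ker N = S := by
        apply hmin' _ inf_le_left
        · refine lt_of_le_of_ne ?_ (Ne.symm h3)
          intro f hf
          exact ⟨hPS.le hf, hNP f hf⟩
        · rintro a ha f ⟨hf, hf'⟩
          refine ⟨hSA a ha f hf, ?_⟩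
          show N (ρ a f) = 0
          rw [hNa a ha, show N f = 0 from hf', map_zero]
      intro f hf
      have h6 : f ∈ S ⊓ LinearMap.ker N := by rw [h5]; exact hf
      have h7 : ρ b f - f = 0 := h6.2
      rw [h7]
      exact zero_mem _
  let Q : Submodule 𝕜 F :=
    { carrier := {f | ∀ b ∈ B, ρ b f - f ∈ span 𝕜 {w}}
      add_mem' := fun {x y} hx hy b hb => by
        rw [map_add, add_sub_add_comm]
        exact add_mem (hx b hb) (hy b hb)
      zero_mem' := fun b _ => by rw [map_zero, sub_zero]; exact zero_mem _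
      smul_mem' := fun c x hx b hb => by
        rw [map_smul, ← smul_sub]
        exact Submodule.smul_mem _ _ (hx b hb) }
  have hPQ : P ≤ Q := by
    intro f hf b hb
    rw [hf b hb, sub_self]
    exact zero_mem _
  have hQtriv : ∀ k, ∀ f ∈ Q, ρ k f - f ∈ P := by
    intro k f hf
    obtain ⟨a, ha, b', hb', hk⟩ := hgen k
    have h3 : ρ a f - f ∈ P := by
      intro b hb
      obtain ⟨c, hc⟩ := Submodule.mem_span_singleton.1 (hf b hb)
      have h4 : ρ b f = f + c • w := by rw [hc]; abel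
      rw [map_sub, hcomm a ha b hb, h4, map_add, map_smul, hw]
      abel
    have h4 : ρ b' f - f ∈ P := by
      obtain ⟨c, hc⟩ := Submodule.mem_span_singleton.1 (hf b' hb')
      rw [← hc]
      exact P.smul_mem _ hwP
    have h5 : ρ k f - f = ρ a (ρ b' f - f) + (ρ a f - f) := by
      rw [hk, Module.End.mul_apply, map_sub]
      abel
    rw [h5]
    exact P.add_mem (hPinv a _ h4) h3
  have hQP := h2 P Q hPQ hwP hPinv hQtriv
  have hSQ : S ≤ Q := fun f hf b hb => hline b hb f hf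
  exact absurd (lt_of_lt_of_le hPS (hSQ.trans hQP)) (lt_irrefl P)

end Pool.Agent.N502.CH
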