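import Pool.Agent.N502.CH.Aff

/-!
# Affine actions on affine subspaces
-/

set_option autoImplicit false

open Submodule
open scoped Pointwise

namespace Pool.Agent.N502.CH

variable {Γ E : Type} [Group Γ] [NormedAddCommGroup E] [NormedSpace ℝ E]

theorem hol_vadd (hol : Γ →* (E ≃ᵃ[ℝ] E)) (γ : Γ) (v q : E) :
    hol γ (v + q) = (hol γ).linear v + hol γ q := (hol γ).map_vadd q v

theorem hol_sub' (hol : Γ →* (E ≃ᵃ[ℝ] E)) (γ : Γ) (p q : E) :
    (hol γ).linear (p - q) = hol γ p - hol γ q := by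
  have h := hol_vadd hol γ (p - q) q
  rw [sub_add_cancel] at h
  rw [h, add_sub_cancel_right]

theorem hol_mul' (hol : Γ →* (E ≃ᵃ[ℝ] E)) (γ δ : Γ) (q : E) :
    hol (γ * δ) q = hol γ (hol δ q) := by rw [map_mul]; rfl

/-- the span of the displacements -/
def disp (hol : Γ →* (E ≃ᵃ[ℝ] E)) (N : Subgroup Γ) (H : AffineSubspace ℝ E) : Submodule ℝ E :=
  span ℝ {v | ∃ a ∈ N, ∃ q ∈ H, v = hol a q - q}

theorem mem_disp (hol : Γ →* (E ≃ᵃ[ℝ] E)) {N : Subgroup Γ} {H : AffineSubspace ℝ E} {a : Γ}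
    (ha : a ∈ N) {q : E} (hq : q ∈ H) : hol a q - q ∈ disp hol N H :=
  subset_span ⟨a, ha, q, hq, rfl⟩

theorem disp_le {hol : Γ →* (E ≃ᵃ[ℝ] E)} {N : Subgroup Γ} {H : AffineSubspace ℝ E}
    (hinv : ∀ γ ∈ N, ∀ q ∈ H, hol γ q ∈ H) : disp hol N H ≤ H.direction := by
  refine span_le.2 ?_
  rintro _ ⟨a, ha, q, hq, rfl⟩
  exact AffineSubspace.vsub_mem_direction (hinv a ha q hq) hq

theorem disp_bot {hol : Γ →* (E ≃ᵃ[ℝ] E)} {N : Subgroup Γ} {H : AffineSubspace ℝ E}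
    (h : disp hol N H = ⊥) : ∀ a ∈ N, ∀ q ∈ H, hol a q = q := by
  intro a ha q hq
  have h1 := mem_disp hol ha hq
  rw [h, Submodule.mem_bot] at h1
  exact sub_eq_zero.1 h1

section inv

variable {hol : Γ →* (E ≃ᵃ[ℝ] E)} {K : Subgroup Γ} {H : AffineSubspace ℝ E}

theorem disp_inv {N : Subgroup Γ} (hinv : ∀ γ ∈ K, ∀ q ∈ H, hol γ q ∈ H)
    (hnor : ∀ γ ∈ K, ∀ a ∈ N, ∃ b ∈ N, ∀ q ∈ H, hol (γ * a * γ⁻¹) q = hol b q) :
    ∀ γ ∈ K, ∀ v ∈ disp hol N H, (hol γ).linear v ∈ disp hol N H := by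
  intro γ hγ v hv
  have h1 : disp hol N H ≤ (disp hol N H).comap ((hol γ).linear : E →ₗ[ℝ] E) := by
    refine span_le.2 ?_
    rintro _ ⟨a, ha, q, hq, rfl⟩
    show (hol γ).linear (hol a q - q) ∈ disp hol N H
    obtain ⟨b, hb, hab⟩ := hnor γ hγ a ha
    have h2 := hab (hol γ q) (hinv γ hγ q hq)
    rw [← hol_mul', mul_assoc, mul_assoc, inv_mul_cancel, mul_one, hol_mul'] at h2
    rw [hol_sub', h2]
    exact mem_disp hol hb (hinv γ hγ q hq)
  exact h1 hv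

/-- linear part on the direction -/
noncomputable def linV (hinv : ∀ γ ∈ K, ∀ q ∈ H, hol γ q ∈ H) {p : E} (hp : p ∈ H) (k : K) :
    H.direction →ₗ[ℝ] H.direction :=
  ((hol k.1).linear : E →ₗ[ℝ] E).restrict (p := H.direction) (q := H.direction) (by
    intro v hv
    show (hol k.1).linear v ∈ H.direction
    have h1 : (hol k.1).linear v = hol k.1 (v + p) - hol k.1 p := by
      rw [hol_vadd, add_sub_cancel_right]
    rw [h1]
    exact AffineSubspace.vsub_mem_direction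
      (hinv _ k.2 _ (AffineSubspace.vadd_mem_of_mem_direction hv hp)) (hinv _ k.2 _ hp))

/-- the cocycle -/
def cocV (hinv : ∀ γ ∈ K, ∀ q ∈ H, hol γ q ∈ H) {p : E} (hp : p ∈ H) (k : K) : H.direction :=
  ⟨hol k.1 p - p, AffineSubspace.vsub_mem_direction (hinv _ k.2 _ hp) hp⟩

theorem linV_coe (hinv : ∀ γ ∈ K, ∀ q ∈ H, hol γ q ∈ H) {p : E} (hp : p ∈ H) (k : K)
    (v : H.direction) : (linV hinv hp k v : E) = (hol k.1).linear v := rfl

theorem cocV_coe (hinv : ∀ γ ∈ K, ∀ q ∈ H, hol γ q ∈ H) {p : E} (hp : p ∈ H) (k : K) :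
    (cocV hinv hp k : E) = hol k.1 p - p := rfl

theorem key (hinv : ∀ γ ∈ K, ∀ q ∈ H, hol γ q ∈ H) {p : E} (hp : p ∈ H) (k : K)
    (v : H.direction) : ((linV hinv hp k v + cocV hinv hp k : H.direction) : E) =
      hol k.1 (v + p) - p := by
  rw [Submodule.coe_add, linV_coe, cocV_coe, hol_vadd, add_sub_assoc]

theorem affAct (hinv : ∀ γ ∈ K, ∀ q ∈ H, hol γ q ∈ H) {p : E} (hp : p ∈ H) :
    AffAct (linV hinv hp) (cocV hinv hp) where
  lmul k k' v := by
    apply Subtype.ext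
    rw [linV_coe, linV_coe, linV_coe, Subgroup.coe_mul, map_mul]
    rfl
  lone v := by
    apply Subtype.ext
    rw [linV_coe, Subgroup.coe_one, map_one]
    rfl
  cmul k k' := by
    apply Subtype.ext
    rw [Submodule.coe_add, linV_coe, cocV_coe, cocV_coe, cocV_coe, Subgroup.coe_mul, hol_mul',
      hol_sub']
    abel
  cone := by
    apply Subtype.ext
    rw [cocV_coe, Subgroup.coe_one, map_one, Submodule.coe_zero]
    exact sub_self p

theorem irr_top (hinv : ∀ γ ∈ K, ∀ q ∈ H, hol γ q ∈ H) {p : E} (hp : p ∈ H)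
    (hstar : ∀ (S : Set E) (p : E), p ∈ S → S ⊆ H → StarConvex ℝ p S →
      (∀ γ ∈ K, ∀ q ∈ S, hol γ q ∈ S) → S = H) :
    Irr (linV hinv hp) (cocV hinv hp) ⊤ := by
  intro W v hv hW
  have h1 := hstar {q | ∃ u ∈ W, q = (u : E) + (v + p)} (v + p)
    ⟨0, W.zero_mem, by rw [Submodule.coe_zero, zero_add]⟩ ?_ ?_ ?_
  · rw [eq_top_iff]
    intro x _
    have h2 : (x : E) + (v + p) ∈ (H : Set E) :=
      AffineSubspace.vadd_mem_of_mem_direction x.2
        (AffineSubspace.vadd_mem_of_mem_direction v.2 hp)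
    rw [← h1] at h2
    obtain ⟨u, hu, hxu⟩ := h2
    have h3 : x = u := Subtype.ext (add_right_cancel hxu)
    rw [h3]
    exact hu
  · rintro _ ⟨u, hu, rfl⟩
    exact AffineSubspace.vadd_mem_of_mem_direction u.2
      (AffineSubspace.vadd_mem_of_mem_direction v.2 hp)
  · rintro _ ⟨u, hu, rfl⟩ s t hs ht hst
    refine ⟨t • u, W.smul_mem _ hu, ?_⟩
    rw [Submodule.coe_smul, smul_add t (u : E), add_left_comm, ← add_smul, hst, one_smul]
  · rintro γ hγ _ ⟨u, hu, rfl⟩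
    refine ⟨linV hinv hp ⟨γ, hγ⟩ u + (linV hinv hp ⟨γ, hγ⟩ v + cocV hinv hp ⟨γ, hγ⟩ - v),
      W.add_mem (hW _ trivial u hu) (hv _ trivial), ?_⟩
    rw [Submodule.coe_add, Submodule.coe_sub, key, linV_coe, hol_vadd]
    show _ = _ + (hol γ (v + p) - p - v) + (v + p)
    abel

theorem no_triv [FiniteDimensional ℝ E] (hinv : ∀ γ ∈ K, ∀ q ∈ H, hol γ q ∈ H) {p : E} (hp : p ∈ H)
    (hline : ∀ W W' : Submodule ℝ E, W ≤ W' → W' ≤ H.direction →
      (∀ γ ∈ K, ∀ v ∈ W, (hol γ).linear v ∈ W) → (∀ γ ∈ K, ∀ v ∈ W', (hol γ).linear v ∈ W') →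
      Module.finrank ℝ W' ≠ Module.finrank ℝ W + 1) :
    NoTriv (linV hinv hp) := by
  intro W W' hWW' hW hW'
  by_contra hnle
  obtain ⟨v, hvW', hvW⟩ := Set.not_subset.1 hnle
  have hv1 : v ≠ 0 := by
    rintro rfl
    exact hvW W.zero_mem
  have hle : W ⊔ span ℝ {v} ≤ W' := sup_le hWW' (by rwa [span_singleton_le_iff_mem])
  refine hline (W.map H.direction.subtype) ((W ⊔ span ℝ {v}).map H.direction.subtype)
    (Submodule.map_mono le_sup_left) (Submodule.map_subtype_le _ _) ?_ ?_ ?_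
  · rintro γ hγ _ ⟨u, hu, rfl⟩
    exact ⟨linV hinv hp ⟨γ, hγ⟩ u, hW _ u hu, rfl⟩
  · rintro γ hγ _ ⟨u, hu, rfl⟩
    refine ⟨linV hinv hp ⟨γ, hγ⟩ u, ?_, rfl⟩
    have h1 := (W ⊔ span ℝ {v}).add_mem
      ((le_sup_left : W ≤ W ⊔ span ℝ {v}) (hW' ⟨γ, hγ⟩ u (hle hu))) hu
    rwa [sub_add_cancel] at h1
  · rw [Submodule.finrank_map_subtype_eq, Submodule.finrank_map_subtype_eq]
    have h2 : W < W ⊔ span ℝ {v} := by
      refine lt_of_le_of_ne le_sup_left fun h => hvW ?_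
      rw [h]
      exact (le_sup_right : span ℝ {v} ≤ _) (mem_span_singleton_self v)
    have h3 := Submodule.finrank_lt_finrank_of_lt h2
    have h4 := Submodule.finrank_add_le_finrank_add_finrank W (span ℝ {v})
    rw [finrank_span_singleton hv1] at h4
    omega

theorem disp_to_Disp (hinv : ∀ γ ∈ K, ∀ q ∈ H, hol γ q ∈ H) {p : E} (hp : p ∈ H) {N : Subgroup Γ}
    (hN : N ≤ K) (hd : disp hol N H = H.direction) :
    Disp (linV hinv hp) (cocV hinv hp) (N.subgroupOf K) := by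
  intro W hW
  have h1 : H.direction ≤ W.map H.direction.subtype := by
    refine hd.symm.le.trans ?_
    refine span_le.2 ?_
    rintro _ ⟨a, ha, q, hq, rfl⟩
    have hq' : q - p ∈ H.direction := AffineSubspace.vsub_mem_direction hq hp
    refine ⟨_, hW ⟨a, hN ha⟩ (Subgroup.mem_subgroupOf.2 ha) ⟨q - p, hq'⟩, ?_⟩
    rw [Submodule.subtype_apply, Submodule.coe_sub, key]
    show hol a (q - p + p) - p - (q - p) = _
    rw [sub_add_cancel]
    abel
  rw [eq_top_iff]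
  intro x _
  obtain ⟨u, hu, hux⟩ := h1 x.2
  have h3 : u = x := Subtype.ext hux
  rw [← h3]
  exact hu

/-- the invariant spaces of affine functions for a family of subgroups -/
theorem family_geo [FiniteDimensional ℝ E] (hinv : ∀ γ ∈ K, ∀ q ∈ H, hol γ q ∈ H) {p : E}
    (hp : p ∈ H)
    (hstar : ∀ (S : Set E) (p : E), p ∈ S → S ⊆ H → StarConvex ℝ p S →
      (∀ γ ∈ K, ∀ q ∈ S, hol γ q ∈ S) → S = H)
    (𝓛 : Set (Subgroup Γ)) (hle : ∀ L ∈ 𝓛, L ≤ K) (hinf : ∀ L ∈ 𝓛, ∀ L' ∈ 𝓛, L ⊓ L' ∈ 𝓛)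
    (hcon : ∀ γ ∈ K, ∀ L ∈ 𝓛, ∃ L' ∈ 𝓛, ∀ a ∈ L', ∃ b ∈ L,
      ∀ q ∈ H, hol (γ * a * γ⁻¹) q = hol b q)
    (hd : ∀ L ∈ 𝓛, disp hol L H = H.direction) {N : Subgroup Γ} (hN : N ∈ 𝓛)
    (S : Submodule ℝ (Module.Dual ℝ (H.direction × ℝ))) (hS : S ≠ ⊥)
    (hSA : ∀ a ∈ N.subgroupOf K, ∀ f ∈ S, rep (affAct hinv hp) a f ∈ S) :
    one H.direction ∈ S := by
  refine family_step (affAct hinv hp) (irr_top hinv hp hstar)
    {A | ∃ L ∈ 𝓛, A = L.subgroupOf K} ?_ ?_ ?_ (N.subgroupOf K) ⟨N, hN, rfl⟩ S hS hSA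
  · rintro _ ⟨L, hL, rfl⟩ _ ⟨L', hL', rfl⟩
    exact ⟨L ⊓ L', hinf L hL L' hL', rfl⟩
  · rintro k _ ⟨L, hL, rfl⟩
    obtain ⟨L', hL', h1⟩ := hcon k.1 k.2 L hL
    refine ⟨_, ⟨L', hL', rfl⟩, ?_⟩
    intro a ha
    obtain ⟨b, hb, hab⟩ := h1 a.1 (Subgroup.mem_subgroupOf.1 ha)
    refine ⟨⟨b, hle L hL hb⟩, Subgroup.mem_subgroupOf.2 hb, fun v => ?_⟩
    apply Subtype.ext
    rw [key, key]
    exact congrArg (· - p) (hab _ (AffineSubspace.vadd_mem_of_mem_direction v.2 hp))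
  · rintro _ ⟨L, hL, rfl⟩
    exact disp_to_Disp hinv hp (hle L hL) (hd L hL)

/-- no proper invariant affine subspaces -/
theorem no_affine [FiniteDimensional ℝ E] (hinv : ∀ γ ∈ K, ∀ q ∈ H, hol γ q ∈ H) {p : E}
    (hp : p ∈ H) {N : Subgroup Γ}
    (hstep : ∀ S : Submodule ℝ (Module.Dual ℝ (H.direction × ℝ)), S ≠ ⊥ →
      (∀ a ∈ N.subgroupOf K, ∀ f ∈ S, rep (affAct hinv hp) a f ∈ S) → one H.direction ∈ S)
    (H' : AffineSubspace ℝ E) (hH' : H' ≤ H) {q' : E}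
    (hq' : q' ∈ H') (hH'N : ∀ γ ∈ N, ∀ q ∈ H', hol γ q ∈ H') : H' = H := by
  have h1 := normal_irr (affAct hinv hp) (N.subgroupOf K) hstep
  have hv : q' - p ∈ H.direction := AffineSubspace.vsub_mem_direction (hH' hq') hp
  have h2 := h1 (H'.direction.comap H.direction.subtype) ⟨q' - p, hv⟩ (by
    intro k hk
    rw [Submodule.mem_comap, Submodule.subtype_apply, Submodule.coe_sub, key]
    show hol k.1 (q' - p + p) - p - (q' - p) ∈ H'.direction
    have h3 : hol k.1 (q' - p + p) - p - (q' - p) = hol k.1 q' - q' := by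
      rw [sub_add_cancel]
      abel
    rw [h3]
    exact AffineSubspace.vsub_mem_direction (hH'N _ (Subgroup.mem_subgroupOf.1 hk) _ hq') hq')
    (by
    intro k hk u hu
    rw [Submodule.mem_comap, Submodule.subtype_apply] at hu ⊢
    rw [linV_coe]
    have h3 : (hol k.1).linear (u : E) = hol k.1 (u + q') - hol k.1 q' := by
      rw [hol_vadd, add_sub_cancel_right]
    rw [h3]
    exact AffineSubspace.vsub_mem_direction
      (hH'N _ (Subgroup.mem_subgroupOf.1 hk) _ (AffineSubspace.vadd_mem_of_mem_direction hu hq'))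
      (hH'N _ (Subgroup.mem_subgroupOf.1 hk) _ hq'))
  have h3 : H.direction ≤ H'.direction := by
    intro x hx
    have h4 : (⟨x, hx⟩ : H.direction) ∈ H'.direction.comap H.direction.subtype := by
      rw [h2]; trivial
    exact h4
  exact AffineSubspace.eq_of_direction_eq_of_nonempty_of_le
    (le_antisymm (AffineSubspace.direction_le hH') h3) ⟨q', hq'⟩ hH'

/-- affine maps which commute with `N` are unipotent -/
theorem unip_cent [FiniteDimensional ℝ E] (hinv : ∀ γ ∈ K, ∀ q ∈ H, hol γ q ∈ H) {p : E}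
    (hp : p ∈ H) {N : Subgroup Γ}
    (hstep : ∀ S : Submodule ℝ (Module.Dual ℝ (H.direction × ℝ)), S ≠ ⊥ →
      (∀ a ∈ N.subgroupOf K, ∀ f ∈ S, rep (affAct hinv hp) a f ∈ S) → one H.direction ∈ S)
    (b : E →ᵃ[ℝ] E) (hb : ∀ q ∈ H, b q ∈ H) (hbN : ∀ a ∈ N, ∀ q ∈ H, b (hol a q) = hol a (b q)) :
    ∃ n : ℕ, ∀ q ∈ H, ((b.linear - LinearMap.id : Module.End ℝ E) ^ n) (b q - q) = 0 := by
  have hbv : ∀ v q : E, b (v + q) = b.linear v + b q := fun v q => b.map_vadd q v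
  have hbd : ∀ v ∈ H.direction, b.linear v ∈ H.direction := by
    intro v hv
    have h1 : b.linear v = b (v + p) - b p := by rw [hbv, add_sub_cancel_right]
    rw [h1]
    exact AffineSubspace.vsub_mem_direction
      (hb _ (AffineSubspace.vadd_mem_of_mem_direction hv hp)) (hb _ hp)
  let Lb : H.direction →ₗ[ℝ] H.direction := b.linear.restrict hbd
  let cb : H.direction := ⟨b p - p, AffineSubspace.vsub_mem_direction (hb _ hp) hp⟩
  have hkey : ∀ v : H.direction, ((Lb v + cb : H.direction) : E) = b (v + p) - p := by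
    intro v
    rw [Submodule.coe_add, hbv]
    show b.linear v + (b p - p) = _
    rw [add_sub_assoc]
  obtain ⟨n, hn⟩ := comm_unip (affAct hinv hp) (N.subgroupOf K) hstep Lb cb (by
    intro a ha v
    apply Subtype.ext
    rw [hkey, key, key, hkey, sub_add_cancel, sub_add_cancel]
    exact congrArg (· - p) (hbN a.1 (Subgroup.mem_subgroupOf.1 ha) _
      (AffineSubspace.vadd_mem_of_mem_direction v.2 hp)))
  have hpow : ∀ (n : ℕ) (x : H.direction),
      ((((Lb - LinearMap.id : Module.End ℝ H.direction) ^ n) x : H.direction) : E) =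
        ((b.linear - LinearMap.id : Module.End ℝ E) ^ n) x := by
    intro n
    induction n with
    | zero => intro x; rfl
    | succ n ih =>
      intro x
      rw [pow_succ, Module.End.mul_apply, ih, pow_succ, Module.End.mul_apply]
      rfl
  refine ⟨n, fun q hq => ?_⟩
  have hqp : q - p ∈ H.direction := AffineSubspace.vsub_mem_direction hq hp
  have h1 := congrArg Subtype.val (hn ⟨q - p, hqp⟩)
  rw [hpow, Submodule.coe_sub, hkey] at h1
  have h2 : b (q - p + p) - p - (q - p) = b q - q := by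
    rw [sub_add_cancel]
    abel
  have h3 : ((b.linear - LinearMap.id : Module.End ℝ E) ^ n) (b (q - p + p) - p - (q - p)) = 0 := h1
  rwa [h2] at h3

/-- commensurated subgroups -/
theorem comm_alt [FiniteDimensional ℝ E] (hinv : ∀ γ ∈ K, ∀ q ∈ H, hol γ q ∈ H)
    {N : Subgroup Γ} (hN : N ≤ K) (hcom : K ≤ Subgroup.Commensurable.commensurator N) :
    (∃ L ≤ N, L.relIndex N ≠ 0 ∧ disp hol L H ≠ H.direction ∧
      ∀ γ ∈ K, ∀ v ∈ disp hol L H, (hol γ).linear v ∈ disp hol L H) ∨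
    ∀ L ≤ N, L.relIndex N ≠ 0 → disp hol L H = H.direction := by
  have hmem : ∀ {L : Subgroup Γ} {γ a : Γ},
      a ∈ ConjAct.toConjAct γ • L ↔ γ⁻¹ * a * γ ∈ L := by
    intro L γ a
    rw [Subgroup.mem_pointwise_smul_iff_inv_smul_mem, ← map_inv, ConjAct.smul_def,
      ConjAct.ofConjAct_toConjAct, inv_inv]
  obtain ⟨L, ⟨hLN, hL⟩, hmin⟩ := WellFounded.has_min
    (InvImage.wf (fun L : Subgroup Γ => Module.finrank ℝ (disp hol L H)) Nat.lt_wfRel.wf)
    {L : Subgroup Γ | L ≤ N ∧ L.relIndex N ≠ 0}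
    ⟨N, le_rfl, by rw [Subgroup.relIndex_self]; exact one_ne_zero⟩
  have hmin' : ∀ L' ≤ N, L'.relIndex N ≠ 0 →
      Module.finrank ℝ (disp hol L H) ≤ Module.finrank ℝ (disp hol L' H) :=
    fun L' h1 h2 => not_lt.1 (hmin L' ⟨h1, h2⟩)
  have hdle : ∀ L' ≤ N, disp hol L' H ≤ H.direction := fun L' h1 =>
    disp_le fun γ hγ => hinv γ (hN (h1 hγ))
  by_cases hd : disp hol L H = H.direction
  · right
    intro L' h1 h2
    have h3 := hmin' L' h1 h2
    rw [hd] at h3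
    exact Submodule.eq_of_le_of_finrank_le (hdle L' h1) h3
  · left
    refine ⟨L, hLN, hL, hd, ?_⟩
    intro γ hγ v hv
    have h1 : Subgroup.Commensurable L N := ⟨hL, by
      rw [Subgroup.relIndex_eq_one.2 hLN]; exact one_ne_zero⟩
    let L₁ : Subgroup Γ := ((ConjAct.toConjAct γ • L) ⊓ N) ⊓ L
    have hL₁N : L₁ ≤ N := inf_le_right.trans hLN
    have hL₁ : L₁.relIndex N ≠ 0 := by
      refine Subgroup.relIndex_inf_ne_zero ?_ hL
      rw [Subgroup.inf_relIndex_right]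
      exact ((h1.conj (ConjAct.toConjAct γ)).trans (hcom hγ)).1
    have h2 : disp hol L₁ H ≤ disp hol L H := by
      refine span_mono ?_
      rintro _ ⟨a, ha, q, hq, rfl⟩
      exact ⟨a, ha.2, q, hq, rfl⟩
    have h3 : disp hol L₁ H = disp hol L H :=
      Submodule.eq_of_le_of_finrank_le h2 (hmin' L₁ hL₁N hL₁)
    have h4 : disp hol L₁ H ≤ (disp hol L H).map ((hol γ).linear : E →ₗ[ℝ] E) := by
      refine span_le.2 ?_
      rintro _ ⟨a, ha, q, hq, rfl⟩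
      refine ⟨hol (γ⁻¹ * a * γ) (hol γ⁻¹ q) - hol γ⁻¹ q,
        mem_disp hol (hmem.1 ha.1.1) (hinv _ (K.inv_mem hγ) _ hq), ?_⟩
      show (hol γ).linear _ = _
      rw [hol_sub', ← hol_mul', ← hol_mul', ← hol_mul']
      have h5 : γ * (γ⁻¹ * a * γ) * γ⁻¹ = a := by group
      rw [h5, mul_inv_cancel, map_one]
      rfl
    rw [h3] at h4
    have h5 : disp hol L H = (disp hol L H).map ((hol γ).linear : E →ₗ[ℝ] E) :=
      Submodule.eq_of_le_of_finrank_le h4 (Submodule.finrank_map_le _ _)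
    rw [h5]
    exact ⟨v, hv, rfl⟩

/-- commuting subgroups -/
theorem commuting_affine [FiniteDimensional ℝ E] (hinv : ∀ γ ∈ K, ∀ q ∈ H, hol γ q ∈ H) {p : E}
    (hp : p ∈ H)
    (hstar : ∀ (S : Set E) (p : E), p ∈ S → S ⊆ H → StarConvex ℝ p S →
      (∀ γ ∈ K, ∀ q ∈ S, hol γ q ∈ S) → S = H)
    (hline : ∀ W W' : Submodule ℝ E, W ≤ W' → W' ≤ H.direction →
      (∀ γ ∈ K, ∀ v ∈ W, (hol γ).linear v ∈ W) → (∀ γ ∈ K, ∀ v ∈ W', (hol γ).linear v ∈ W') →
      Module.finrank ℝ W' ≠ Module.finrank ℝ W + 1)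
    {A B : Subgroup Γ} (hA : A ≤ K) (hB : B ≤ K)
    (hAB : ∀ a ∈ A, ∀ b ∈ B, ∀ q ∈ H, hol a (hol b q) = hol b (hol a q))
    (hgen : ∀ γ ∈ K, ∃ a ∈ A, ∃ b ∈ B, ∀ q ∈ H, hol γ q = hol a (hol b q))
    (hd : disp hol A H = H.direction) : ∀ b ∈ B, ∀ q ∈ H, hol b q = q := by
  intro b hb q hq
  have h1 := commuting_triv (affAct hinv hp) (irr_top hinv hp hstar) (no_triv hinv hp hline)
    (A.subgroupOf K) (B.subgroupOf K) (by
      rintro a ha b hb v
      apply Subtype.ext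
      rw [key, key]
      have h2 := hAB a.1 (Subgroup.mem_subgroupOf.1 ha) b.1 (Subgroup.mem_subgroupOf.1 hb) _
        (AffineSubspace.vadd_mem_of_mem_direction v.2 hp)
      rw [← hol_mul', ← hol_mul'] at h2
      show hol (a.1 * b.1) _ - p = hol (b.1 * a.1) _ - p
      exact congrArg (· - p) h2) (by
      intro k
      obtain ⟨a, ha, b, hb, hk⟩ := hgen k.1 k.2
      refine ⟨⟨a, hA ha⟩, Subgroup.mem_subgroupOf.2 ha, ⟨b, hB hb⟩, Subgroup.mem_subgroupOf.2 hb,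
        fun v => ?_⟩
      apply Subtype.ext
      rw [key, key]
      have h2 := hk _ (AffineSubspace.vadd_mem_of_mem_direction v.2 hp)
      rw [← hol_mul'] at h2
      show hol k.1 _ - p = hol (a * b) _ - p
      exact congrArg (· - p) h2)
    (disp_to_Disp hinv hp hA hd) ⟨b, hB hb⟩ (Subgroup.mem_subgroupOf.2 hb)
    ⟨q - p, AffineSubspace.vsub_mem_direction hq hp⟩
  have h2 := congrArg Subtype.val h1
  rw [key] at h2
  have h3 : hol b (q - p + p) - p = q - p := h2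
  rw [sub_add_cancel] at h3
  exact sub_left_injective h3

end inv

end Pool.Agent.N502.CH
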