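import Pool.Agent.N502.CH.Geo

/-!
# The splitting for commuting subgroups
-/

set_option autoImplicit false

open Submodule
open scoped Pointwise

namespace Pool.Agent.N502.CH

variable {Γ E : Type} [Group Γ] [NormedAddCommGroup E] [NormedSpace ℝ E]
  {hol : Γ →* (E ≃ᵃ[ℝ] E)} {K : Subgroup Γ} {H : AffineSubspace ℝ E} {A B : Subgroup Γ}

/-- conjugates of subgroups of finite index of a commensurated subgroup -/
theorem conj_index {N L : Subgroup Γ} (hcom : K ≤ Subgroup.Commensurable.commensurator N) {γ : Γ}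
    (hγ : γ ∈ K) (hLN : L ≤ N) (hL : L.relIndex N ≠ 0) :
    ∃ L' ≤ N, L'.relIndex N ≠ 0 ∧ ∀ a ∈ L', γ * a * γ⁻¹ ∈ L := by
  have h1 : Subgroup.Commensurable L N := ⟨hL, by
    rw [Subgroup.relIndex_eq_one.2 hLN]; exact one_ne_zero⟩
  refine ⟨(ConjAct.toConjAct γ⁻¹ • L) ⊓ N, inf_le_right, ?_, ?_⟩
  · rw [Subgroup.inf_relIndex_right]
    exact ((h1.conj (ConjAct.toConjAct γ⁻¹)).trans (hcom (K.inv_mem hγ))).1
  · rintro a ⟨ha, -⟩
    have h2 : γ⁻¹⁻¹ * a * γ⁻¹ ∈ L := by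
      rw [← ConjAct.ofConjAct_toConjAct γ⁻¹⁻¹] at *
      have h3 := Subgroup.mem_pointwise_smul_iff_inv_smul_mem.1 ha
      rw [← map_inv, ConjAct.smul_def, ConjAct.ofConjAct_toConjAct, inv_inv] at h3
      simpa using h3
    rwa [inv_inv] at h2

/-- the span of the displacements of a factor is invariant -/
theorem disp_inv_comm (hinv : ∀ γ ∈ K, ∀ q ∈ H, hol γ q ∈ H) (hA : A ≤ K) (hB : B ≤ K)
    (hAB : ∀ a ∈ A, ∀ b ∈ B, ∀ q ∈ H, hol a (hol b q) = hol b (hol a q))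
    (hgen : ∀ γ ∈ K, ∃ a ∈ A, ∃ b ∈ B, ∀ q ∈ H, hol γ q = hol a (hol b q)) :
    ∀ γ ∈ K, ∀ v ∈ disp hol A H, (hol γ).linear v ∈ disp hol A H := by
  intro γ hγ v hv
  obtain ⟨a', ha', b, hb, hab⟩ := hgen γ hγ
  have h1 : disp hol A H ≤ (disp hol A H).comap ((hol γ).linear : E →ₗ[ℝ] E) := by
    refine span_le.2 ?_
    rintro _ ⟨a, ha, q, hq, rfl⟩
    show (hol γ).linear (hol a q - q) ∈ disp hol A H
    have hq' := hinv b (hB hb) q hq
    rw [hol_sub', hab _ (hinv a (hA ha) q hq), hab q hq, ← hAB a ha b hb q hq]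
    have h2 : hol a' (hol a (hol b q)) - hol a' (hol b q) =
        (hol (a' * a) (hol b q) - hol b q) - (hol a' (hol b q) - hol b q) := by
      rw [hol_mul']
      abel
    rw [h2]
    exact sub_mem (mem_disp hol (A.mul_mem ha' ha) hq') (mem_disp hol ha' hq')
  exact h1 hv

/-- the displacements of the factors span everything -/
theorem disp_sup {p : E} (hp : p ∈ H) (hinv : ∀ γ ∈ K, ∀ q ∈ H, hol γ q ∈ H)
    (hstar : ∀ (S : Set E) (p : E), p ∈ S → S ⊆ H → StarConvex ℝ p S →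
      (∀ γ ∈ K, ∀ q ∈ S, hol γ q ∈ S) → S = H) (hA : A ≤ K) (hB : B ≤ K)
    (hgen : ∀ γ ∈ K, ∃ a ∈ A, ∃ b ∈ B, ∀ q ∈ H, hol γ q = hol a (hol b q)) :
    disp hol A H ⊔ disp hol B H = H.direction := by
  have hle : disp hol A H ⊔ disp hol B H ≤ H.direction :=
    sup_le (disp_le fun γ hγ => hinv γ (hA hγ)) (disp_le fun γ hγ => hinv γ (hB hγ))
  refine le_antisymm hle ?_
  have h1 := hstar {q | q - p ∈ disp hol A H ⊔ disp hol B H} p
    (by show p - p ∈ disp hol A H ⊔ disp hol B H; rw [sub_self]; exact zero_mem _) ?_ ?_ ?_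
  · intro x hx
    have h2 : x + p ∈ (H : Set E) := AffineSubspace.vadd_mem_of_mem_direction hx hp
    rw [← h1] at h2
    have h3 : x + p - p ∈ disp hol A H ⊔ disp hol B H := h2
    rwa [add_sub_cancel_right] at h3
  · intro q hq
    have h2 : (q - p) + p ∈ H := AffineSubspace.vadd_mem_of_mem_direction (hle hq) hp
    rwa [sub_add_cancel] at h2
  · intro q hq s t hs ht hst
    show s • p + t • q - p ∈ disp hol A H ⊔ disp hol B H
    have h2 : s • p + t • q - p = t • (q - p) := by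
      have h3 : s = 1 - t := by linarith
      rw [h3, sub_smul, one_smul, smul_sub]
      abel
    rw [h2]
    exact Submodule.smul_mem _ _ hq
  · intro γ hγ q hq
    obtain ⟨a, ha, b, hb, hab⟩ := hgen γ hγ
    have hqH : q ∈ H := by
      have h2 : (q - p) + p ∈ H := AffineSubspace.vadd_mem_of_mem_direction (hle hq) hp
      rwa [sub_add_cancel] at h2
    have hbq := hinv b (hB hb) q hqH
    show hol γ q - p ∈ disp hol A H ⊔ disp hol B H
    have h3 : hol γ q - p = (hol a (hol b q) - hol b q) + (hol b q - q) + (q - p) := by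
      rw [hab q hqH]
      abel
    rw [h3]
    exact add_mem (add_mem (mem_sup_left (mem_disp hol ha hbq))
      (mem_sup_right (mem_disp hol hb hqH))) hq

theorem dims [FiniteDimensional ℝ E] (hinv : ∀ γ ∈ K, ∀ q ∈ H, hol γ q ∈ H)
    (hline : ∀ W W' : Submodule ℝ E, W ≤ W' → W' ≤ H.direction →
      (∀ γ ∈ K, ∀ v ∈ W, (hol γ).linear v ∈ W) → (∀ γ ∈ K, ∀ v ∈ W', (hol γ).linear v ∈ W') →
      Module.finrank ℝ W' ≠ Module.finrank ℝ W + 1) {p : E} (hp : p ∈ H)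
    {W : Submodule ℝ E} (hW : W ≤ H.direction) (hWi : ∀ γ ∈ K, ∀ v ∈ W, (hol γ).linear v ∈ W)
    (h0 : W ≠ ⊥) (h1 : W ≠ H.direction) :
    2 ≤ Module.finrank ℝ W ∧ Module.finrank ℝ W + 2 ≤ Module.finrank ℝ H.direction := by
  have hd : ∀ γ ∈ K, ∀ v ∈ H.direction, (hol γ).linear v ∈ H.direction := fun γ hγ v hv =>
    (linV hinv hp ⟨γ, hγ⟩ ⟨v, hv⟩).2
  have h2 := hline ⊥ W bot_le hW (fun γ _ v hv => by
    rw [Submodule.mem_bot] at hv ⊢
    rw [hv, map_zero]) hWi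
  have h3 := hline W H.direction hW le_rfl hWi hd
  rw [finrank_bot] at h2
  have h4 : Module.finrank ℝ W ≠ 0 := fun h => h0 (Submodule.finrank_eq_zero.1 h)
  have h5 := Submodule.finrank_lt_finrank_of_lt (lt_of_le_of_ne hW h1)
  omega

/-- the product structure -/
theorem shift_eq {WA WB : Submodule ℝ E} (hdis : WA ⊓ WB = ⊥)
    (hA : ∀ a ∈ A, ∀ q ∈ H, hol a q - q ∈ WA)
    (hWB : WB ≤ H.direction) (hWBi : ∀ a ∈ A, ∀ v ∈ WB, (hol a).linear v ∈ WB) :
    ∀ a ∈ A, ∀ q ∈ H, ∀ v ∈ WB, hol a (q + v) = hol a q + v := by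
  intro a ha q hq v hv
  have hqv : v + q ∈ H := AffineSubspace.vadd_mem_of_mem_direction (hWB hv) hq
  have h1 : (hol a).linear v - v ∈ WA ⊓ WB := by
    refine ⟨?_, sub_mem (hWBi a ha v hv) hv⟩
    have h2 : (hol a).linear v - v = (hol a (v + q) - (v + q)) - (hol a q - q) := by
      rw [hol_vadd]
      abel
    show (hol a).linear v - v ∈ WA
    rw [h2]
    exact sub_mem (hA a ha _ hqv) (hA a ha q hq)
  rw [hdis, Submodule.mem_bot, sub_eq_zero] at h1
  rw [add_comm q v, hol_vadd, h1, add_comm]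

/-- the splitting for commuting subgroups -/
theorem splitting [FiniteDimensional ℝ E] (hinv : ∀ γ ∈ K, ∀ q ∈ H, hol γ q ∈ H) {p : E}
    (hp : p ∈ H)
    (hstar : ∀ (S : Set E) (p : E), p ∈ S → S ⊆ H → StarConvex ℝ p S →
      (∀ γ ∈ K, ∀ q ∈ S, hol γ q ∈ S) → S = H)
    (hline : ∀ W W' : Submodule ℝ E, W ≤ W' → W' ≤ H.direction →
      (∀ γ ∈ K, ∀ v ∈ W, (hol γ).linear v ∈ W) → (∀ γ ∈ K, ∀ v ∈ W', (hol γ).linear v ∈ W') →
      Module.finrank ℝ W' ≠ Module.finrank ℝ W + 1) (hA : A ≤ K) (hB : B ≤ K)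
    (hAB : ∀ a ∈ A, ∀ b ∈ B, ∀ q ∈ H, hol a (hol b q) = hol b (hol a q))
    (hgen : ∀ γ ∈ K, ∃ a ∈ A, ∃ b ∈ B, ∀ q ∈ H, hol γ q = hol a (hol b q)) :
    (∀ a ∈ A, ∀ q ∈ H, hol a q = q) ∨ (∀ b ∈ B, ∀ q ∈ H, hol b q = q) ∨
    ((∀ γ ∈ K, ∀ v ∈ disp hol A H, (hol γ).linear v ∈ disp hol A H) ∧
      (∀ γ ∈ K, ∀ v ∈ disp hol B H, (hol γ).linear v ∈ disp hol B H) ∧
      disp hol A H ⊔ disp hol B H = H.direction ∧
      (2 ≤ Module.finrank ℝ (disp hol A H) ∧
        Module.finrank ℝ (disp hol A H) + 2 ≤ Module.finrank ℝ H.direction) ∧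
      (2 ≤ Module.finrank ℝ (disp hol B H) ∧
        Module.finrank ℝ (disp hol B H) + 2 ≤ Module.finrank ℝ H.direction) ∧
      (Module.finrank ℝ H.direction ≤ 5 → disp hol A H ⊓ disp hol B H = ⊥ ∧
        (∀ a ∈ A, ∀ q ∈ H, ∀ v ∈ disp hol B H, hol a (q + v) = hol a q + v) ∧
        (∀ b ∈ B, ∀ q ∈ H, ∀ v ∈ disp hol A H, hol b (q + v) = hol b q + v))) := by
  have hgen' : ∀ γ ∈ K, ∃ b ∈ B, ∃ a ∈ A, ∀ q ∈ H, hol γ q = hol b (hol a q) := by
    intro γ hγ
    obtain ⟨a, ha, b, hb, h⟩ := hgen γ hγ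
    exact ⟨b, hb, a, ha, fun q hq => by rw [h q hq, hAB a ha b hb q hq]⟩
  have hBA : ∀ b ∈ B, ∀ a ∈ A, ∀ q ∈ H, hol b (hol a q) = hol a (hol b q) :=
    fun b hb a ha q hq => (hAB a ha b hb q hq).symm
  by_cases hA0 : disp hol A H = ⊥
  · exact Or.inl (disp_bot hA0)
  by_cases hB0 : disp hol B H = ⊥
  · exact Or.inr (Or.inl (disp_bot hB0))
  by_cases hA1 : disp hol A H = H.direction
  · exact Or.inr (Or.inl (commuting_affine hinv hp hstar hline hA hB hAB hgen hA1))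
  by_cases hB1 : disp hol B H = H.direction
  · exact Or.inl (commuting_affine hinv hp hstar hline hB hA hBA hgen' hB1)
  right
  right
  have hAi := disp_inv_comm hinv hA hB hAB hgen
  have hBi := disp_inv_comm hinv hB hA hBA hgen'
  have hAle : disp hol A H ≤ H.direction := disp_le fun γ hγ => hinv γ (hA hγ)
  have hBle : disp hol B H ≤ H.direction := disp_le fun γ hγ => hinv γ (hB hγ)
  have hsup := disp_sup hp hinv hstar hA hB hgen
  have hdA := dims hinv hline hp hAle hAi hA0 hA1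
  have hdB := dims hinv hline hp hBle hBi hB0 hB1
  refine ⟨hAi, hBi, hsup, hdA, hdB, fun h5 => ?_⟩
  have hdim := Submodule.finrank_sup_add_finrank_inf_eq (disp hol A H) (disp hol B H)
  rw [hsup] at hdim
  have hinf0 : disp hol A H ⊓ disp hol B H = ⊥ := by
    have h6 := hline ⊥ (disp hol A H ⊓ disp hol B H) bot_le (inf_le_left.trans hAle)
      (fun γ _ v hv => by
        rw [Submodule.mem_bot] at hv ⊢
        rw [hv, map_zero]) (fun γ hγ v hv => ⟨hAi γ hγ v hv.1, hBi γ hγ v hv.2⟩)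
    rw [finrank_bot] at h6
    apply Submodule.finrank_eq_zero.1
    omega
  refine ⟨hinf0, ?_, ?_⟩
  · exact shift_eq hinf0 (fun a ha q hq => mem_disp hol ha hq) hBle
      (fun a ha v hv => hBi a (hA ha) v hv)
  · exact shift_eq (by rw [inf_comm]; exact hinf0) (fun a ha q hq => mem_disp hol ha hq) hAle
      (fun a ha v hv => hAi a (hB ha) v hv)

end Pool.Agent.N502.CH
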